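import Pool.Agent.KTT.Main

/-!
# Project KTT: monoidal automorphisms of the realisation which are algebraic on `B`

If a monoidal automorphism `τ` of `H` and its inverse are algebraic on `B`, they are algebraic on
every object of `⟨B⟩`.
-/

namespace Pool.Agent.KTT

open CategoryTheory MonoidalCategory Limits Pool.Agent.KMN TensorProduct

universe v u w

variable {C : Type u} [Category.{v} C] [Preadditive C] [HasBinaryBiproducts C]
  [MonoidalCategory C] [RightRigidCategory C]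
  {F : Type w} [Field F] (H : C ⥤ ModuleCat.{w} F)

/-- The endomorphism `τ_X` of `H(X)` is algebraic. -/
def Algebraic (τ : H ⟶ H) (X : C) : Prop := ∃ s : X ⟶ X, H.map s = τ.app X

private theorem hz1 {C : Type u} [Category.{v} C] [MonoidalCategory C] {D : Type*} [Category* D]
    [MonoidalCategory D] (H : C ⥤ D) [H.Monoidal] (X Y : C) [ExactPairing X Y] :
    H.obj Y ◁ (Functor.LaxMonoidal.ε H ≫ H.map (η_ X Y) ≫ Functor.OplaxMonoidal.δ H X Y) ≫
      (α_ (H.obj Y) (H.obj X) (H.obj Y)).inv ≫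
      (Functor.LaxMonoidal.μ H Y X ≫ H.map (ε_ X Y) ≫ Functor.OplaxMonoidal.η H) ▷ H.obj Y =
      (ρ_ (H.obj Y)).hom ≫ (λ_ (H.obj Y)).inv := by
  have h := congrArg H.map (ExactPairing.coevaluation_evaluation X Y)
  rw [H.map_comp, H.map_comp, H.map_comp, Functor.Monoidal.map_whiskerLeft, Functor.Monoidal.map_whiskerRight,
    Functor.Monoidal.map_associator_inv, Functor.Monoidal.map_rightUnitor,
    Functor.Monoidal.map_leftUnitor_inv] at h
  simp only [Category.assoc, Functor.Monoidal.μ_δ_assoc] at h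
  have h2 := congrArg (fun f => (H.obj Y ◁ Functor.LaxMonoidal.ε H ≫ Functor.LaxMonoidal.μ H Y (𝟙_ C)) ≫ f ≫
    (Functor.OplaxMonoidal.δ H (𝟙_ C) Y ≫ Functor.OplaxMonoidal.η H ▷ H.obj Y)) h
  simp only [Category.assoc, Functor.Monoidal.μ_δ_assoc, Functor.Monoidal.whiskerLeft_ε_η_assoc,
    Functor.Monoidal.whiskerRight_ε_η, Category.comp_id] at h2
  simp only [MonoidalCategory.whiskerLeft_comp, comp_whiskerRight, Category.assoc]
  exact h2

private theorem zero_of_zigzag (V W : ModuleCat.{w} F)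
    (c : 𝟙_ (ModuleCat.{w} F) ⟶ V ⊗ W) (e : W ⊗ V ⟶ 𝟙_ (ModuleCat.{w} F))
    (h : W ◁ c ≫ (α_ W V W).inv ≫ e ▷ W = (ρ_ W).hom ≫ (λ_ W).inv)
    (y : W) (hy : ∀ x : V, e.hom (y ⊗ₜ[F] x) = 0) : y = 0 := by
  have key : ∀ t : (V ⊗ W : ModuleCat.{w} F),
      (e ▷ W).hom ((α_ W V W).inv.hom (y ⊗ₜ[F] t)) = 0 := by
    intro t
    induction t using TensorProduct.induction_on with
    | zero => rw [TensorProduct.tmul_zero, map_zero, map_zero]
    | tmul a b =>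
      have h1 : (e ▷ W).hom ((α_ W V W).inv.hom (y ⊗ₜ[F] (a ⊗ₜ[F] b))) =
          (e.hom (y ⊗ₜ[F] a)) ⊗ₜ[F] b := rfl
      rw [h1, hy a, TensorProduct.zero_tmul]
    | add s t hs ht => rw [TensorProduct.tmul_add, map_add, map_add, hs, ht, add_zero]
  have h4 := congrArg (fun f => (λ_ W).hom.hom (f.hom (y ⊗ₜ[F] (1 : F)))) h
  have h5 : (W ◁ c ≫ (α_ W V W).inv ≫ e ▷ W).hom (y ⊗ₜ[F] (1 : F)) =
      (e ▷ W).hom ((α_ W V W).inv.hom (y ⊗ₜ[F] (c.hom (1 : F)))) := rfl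
  have h6 : (λ_ W).hom.hom (((ρ_ W).hom ≫ (λ_ W).inv).hom (y ⊗ₜ[F] (1 : F))) = y := by
    have h7 : (λ_ W).hom.hom (((ρ_ W).hom ≫ (λ_ W).inv).hom (y ⊗ₜ[F] (1 : F))) =
      (((ρ_ W).hom ≫ (λ_ W).inv) ≫ (λ_ W).hom).hom (y ⊗ₜ[F] (1 : F)) := rfl
    rw [h7, Category.assoc, Iso.inv_hom_id, Category.comp_id]
    exact one_smul F y
  rw [← h6, ← h4]
  change (λ_ W).hom.hom ((W ◁ c ≫ (α_ W V W).inv ≫ e ▷ W).hom (y ⊗ₜ[F] (1 : F))) = 0
  rw [h5, key, map_zero]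

/-- The pairing `H(Xᘁ) × H(X) → H(𝟙)`. -/
private noncomputable def pr [H.Monoidal] (X : C) (y : H.obj Xᘁ) (x : H.obj X) :
    H.obj (𝟙_ C) :=
  (H.map (ε_ X Xᘁ)).hom ((Functor.LaxMonoidal.μ H Xᘁ X).hom (y ⊗ₜ[F] x))

private theorem pr_nondeg [H.Monoidal] (X : C) (y : H.obj Xᘁ) (h : ∀ x, pr H X y x = 0) :
    y = 0 := by
  refine zero_of_zigzag (H.obj X) (H.obj Xᘁ) _ _ (hz1 H X Xᘁ) y fun x => ?_
  have h1 := h x
  unfold pr at h1
  rw [ModuleCat.hom_comp, ModuleCat.hom_comp, LinearMap.comp_apply, LinearMap.comp_apply, h1,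
    map_zero]

private theorem pr_sub [H.Monoidal] (X : C) (y y' : H.obj Xᘁ) (x : H.obj X) :
    pr H X (y - y') x = pr H X y x - pr H X y' x := by
  unfold pr
  rw [TensorProduct.sub_tmul, map_sub, map_sub]

private theorem pr_mate [H.Monoidal] (X : C) (s : X ⟶ X) (y : H.obj Xᘁ) (x : H.obj X) :
    pr H X ((H.map (rightAdjointMate s)).hom y) x = pr H X y ((H.map s).hom x) := by
  have h1 := congrArg H.map (rightAdjointMate_comp_evaluation s)
  rw [H.map_comp, H.map_comp, Functor.Monoidal.map_whiskerLeft,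
    Functor.Monoidal.map_whiskerRight] at h1
  have h2 := congrArg (fun f => (Functor.LaxMonoidal.μ H Xᘁ X) ≫ f) h1
  simp only [Category.assoc, Functor.Monoidal.μ_δ_assoc] at h2
  have h3 := congrArg (fun f => f.hom (y ⊗ₜ[F] x)) h2
  exact h3

private theorem tau_unit [H.Monoidal] (τ : H ⟶ H) [NatTrans.IsMonoidal τ] :
    τ.app (𝟙_ C) = 𝟙 _ := by
  have h := NatTrans.IsMonoidal.unit (τ := τ)
  have h1 := congrArg (fun f => Functor.OplaxMonoidal.η H ≫ f) h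
  simpa only [Functor.Monoidal.η_ε_assoc, Functor.Monoidal.η_ε] using h1

private theorem pr_tau [H.Monoidal] (τ : H ⟶ H) [NatTrans.IsMonoidal τ] (X : C)
    (y : H.obj Xᘁ) (x : H.obj X) :
    pr H X ((τ.app Xᘁ).hom y) ((τ.app X).hom x) = pr H X y x := by
  have h2 := congrArg (fun f => f.hom (y ⊗ₜ[F] x)) (NatTrans.IsMonoidal.tensor (τ := τ) Xᘁ X)
  have h3 := congrArg (fun f => f.hom ((Functor.LaxMonoidal.μ H Xᘁ X).hom (y ⊗ₜ[F] x)))
    (τ.naturality (ε_ X Xᘁ))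
  rw [tau_unit H τ, Category.comp_id] at h3
  have h4 : (τ.app (Xᘁ ⊗ X)).hom ((Functor.LaxMonoidal.μ H Xᘁ X).hom (y ⊗ₜ[F] x)) =
      (Functor.LaxMonoidal.μ H Xᘁ X).hom ((τ.app Xᘁ).hom y ⊗ₜ[F] (τ.app X).hom x) := h2
  have h5 : (H.map (ε_ X Xᘁ)).hom ((Functor.LaxMonoidal.μ H Xᘁ X).hom (y ⊗ₜ[F] x)) =
      (H.map (ε_ X Xᘁ)).hom ((τ.app (Xᘁ ⊗ X)).hom
        ((Functor.LaxMonoidal.μ H Xᘁ X).hom (y ⊗ₜ[F] x))) := h3
  unfold pr
  rw [h5, h4]

private theorem alg_dual [H.Monoidal] (τ : H ≅ H) [NatTrans.IsMonoidal τ.hom] (X : C)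
    (h : Algebraic H τ.inv X) : Algebraic H τ.hom Xᘁ := by
  obtain ⟨s, hs⟩ := h
  refine ⟨rightAdjointMate s, ?_⟩
  ext y
  refine sub_eq_zero.1 (pr_nondeg H X _ fun x => ?_)
  rw [pr_sub, pr_mate, hs]
  have h1 := pr_tau H τ.hom X y ((τ.inv.app X).hom x)
  have h2 : (τ.hom.app X).hom ((τ.inv.app X).hom x) = x := by
    have h3 := congrArg (fun f => f.hom x) (τ.inv_hom_id_app X)
    exact h3
  rw [h2] at h1
  rw [h1, sub_self]

private theorem alg_sum [H.Additive] (τ : H ⟶ H) (X Y : C) (hX : Algebraic H τ X)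
    (hY : Algebraic H τ Y) : Algebraic H τ (X ⊞ Y) := by
  obtain ⟨s, hs⟩ := hX
  obtain ⟨t, ht⟩ := hY
  refine ⟨biprod.fst ≫ s ≫ biprod.inl + biprod.snd ≫ t ≫ biprod.inr, ?_⟩
  rw [H.map_add, H.map_comp, H.map_comp, H.map_comp, H.map_comp, hs, ht, ← τ.naturality,
    ← τ.naturality, ← H.map_comp_assoc, ← H.map_comp_assoc, ← Preadditive.add_comp, ← H.map_add,
    biprod.total, H.map_id, Category.id_comp]

private theorem alg_tensor [H.Monoidal] (τ : H ⟶ H) [NatTrans.IsMonoidal τ] (X Y : C)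
    (hX : Algebraic H τ X) (hY : Algebraic H τ Y) : Algebraic H τ (X ⊗ Y) := by
  obtain ⟨s, hs⟩ := hX
  obtain ⟨t, ht⟩ := hY
  refine ⟨s ⊗ₘ t, ?_⟩
  rw [Functor.Monoidal.map_tensor, hs, ht, ← NatTrans.IsMonoidal.tensor,
    Functor.Monoidal.δ_μ_assoc]

private theorem alg_summand (τ : H ⟶ H) (X Y : C) (i : X ⟶ Y) (p : Y ⟶ X) (h : i ≫ p = 𝟙 X)
    (hY : Algebraic H τ Y) : Algebraic H τ X := by
  obtain ⟨s, hs⟩ := hY
  refine ⟨i ≫ s ≫ p, ?_⟩
  rw [H.map_comp, H.map_comp, hs, ← τ.naturality, ← H.map_comp_assoc, h, H.map_id,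
    Category.id_comp]

private theorem alg_zero [H.Additive] (τ : H ⟶ H) (X : C) (h : IsZero X) :
    Algebraic H τ X := by
  refine ⟨0, ?_⟩
  have h1 : 𝟙 X = 0 := h.eq_of_src _ _
  have h2 : 𝟙 (H.obj X) = 0 := by rw [← H.map_id, h1, H.map_zero]
  rw [H.map_zero, ← Category.id_comp (τ.app X), h2, zero_comp]

private instance inv_monoidal [H.Monoidal] (τ : H ≅ H) [NatTrans.IsMonoidal τ.hom] :
    NatTrans.IsMonoidal τ.inv := inferInstance

theorem algebraic_of_thick [H.Additive] [H.Monoidal] (τ : H ≅ H) [NatTrans.IsMonoidal τ.hom]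
    (B : C) (h : Algebraic H τ.hom B) (h' : Algebraic H τ.inv B) (X : C) (hX : Thick B X) :
    Algebraic H τ.hom X ∧ Algebraic H τ.inv X := by
  have : NatTrans.IsMonoidal τ.inv := inferInstance
  have : NatTrans.IsMonoidal τ.symm.hom := this
  induction hX with
  | base => exact ⟨h, h'⟩
  | zero X h => exact ⟨alg_zero H _ X h, alg_zero H _ X h⟩
  | sum X Y _ _ ihX ihY => exact ⟨alg_sum H _ X Y ihX.1 ihY.1, alg_sum H _ X Y ihX.2 ihY.2⟩
  | tensor X Y _ _ ihX ihY =>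
    exact ⟨alg_tensor H _ X Y ihX.1 ihY.1, alg_tensor H _ X Y ihX.2 ihY.2⟩
  | dual X _ ihX => exact ⟨alg_dual H τ X ihX.2, alg_dual H τ.symm X ihX.1⟩
  | summand X Y i p h _ ihY =>
    exact ⟨alg_summand H _ X Y i p h ihY.1, alg_summand H _ X Y i p h ihY.2⟩

end Pool.Agent.KTT
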