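import Pool.Agent.KTT.Defs

/-!
# Project KTT: the Tate property and semisimplicity pass to sums and retracts
-/

namespace Pool.Agent.KTT

open CategoryTheory MonoidalCategory Limits Pool.Agent.KMN

universe v u w w'

variable {C : Type u} [Category.{v} C] [Preadditive C] [HasBinaryBiproducts C]
  [MonoidalCategory C] [RightRigidCategory C]
  {F : Type w} [Field F] (H : C ⥤ ModuleCat.{w} F) {G : Type w'} [Group G] (ρ : G →* Aut H)

omit [Preadditive C] [HasBinaryBiproducts C] [MonoidalCategory C] [RightRigidCategory C] in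
private theorem nat_act {X Y : C} (f : X ⟶ Y) (g : G) (v : H.obj X) :
    ((ρ g).hom.app Y).hom ((H.map f).hom v) = (H.map f).hom (((ρ g).hom.app X).hom v) := by
  have h := congrArg (fun k => k.hom v) ((ρ g).hom.naturality f)
  simpa only [ModuleCat.hom_comp, LinearMap.comp_apply] using h

omit [Preadditive C] [HasBinaryBiproducts C] [RightRigidCategory C] in
private theorem alg_map [H.Monoidal] {X Y : C} (f : X ⟶ Y) (v : H.obj X) (hv : v ∈ alg H X) :
    (H.map f).hom v ∈ alg H Y := by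
  have h : alg H X ≤ (alg H Y).comap (H.map f).hom := by
    refine Submodule.span_le.2 ?_
    rintro _ ⟨g, rfl⟩
    refine Submodule.subset_span ⟨g ≫ f, ?_⟩
    rw [H.map_comp, ModuleCat.hom_comp, LinearMap.comp_apply]
  exact h hv

omit [Preadditive C] [HasBinaryBiproducts C] [MonoidalCategory C] [RightRigidCategory C] in
private theorem fixed_map {X Y : C} (f : X ⟶ Y) (v : H.obj X) (hv : v ∈ fixed H ρ X) :
    (H.map f).hom v ∈ fixed H ρ Y := fun g => by
  rw [nat_act, hv g]

private theorem sum_eq [H.Additive] (X Y : C) (v : H.obj (X ⊞ Y)) :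
    (H.map biprod.inl).hom ((H.map biprod.fst).hom v) +
      (H.map biprod.inr).hom ((H.map biprod.snd).hom v) = v := by
  have h := congrArg (fun k => (H.map k).hom v) (biprod.total (X := X) (Y := Y))
  simpa only [H.map_add, H.map_comp, ModuleCat.hom_add, ModuleCat.hom_comp, LinearMap.add_apply,
    LinearMap.comp_apply, CategoryTheory.Functor.map_id, ModuleCat.hom_id, LinearMap.id_apply]
    using h

private theorem retr_eq {X Y : C} (i : X ⟶ Y) (p : Y ⟶ X) (h : i ≫ p = 𝟙 X) (v : H.obj X) :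
    (H.map p).hom ((H.map i).hom v) = v := by
  have h1 := congrArg (fun k => (H.map k).hom v) h
  simpa only [H.map_comp, ModuleCat.hom_comp, LinearMap.comp_apply,
    CategoryTheory.Functor.map_id, ModuleCat.hom_id, LinearMap.id_apply] using h1

theorem tate_sum [H.Additive] [H.Monoidal] (X Y : C) (hX : fixed H ρ X ≤ alg H X)
    (hY : fixed H ρ Y ≤ alg H Y) : fixed H ρ (X ⊞ Y) ≤ alg H (X ⊞ Y) := by
  intro v hv
  rw [← sum_eq H X Y v]
  exact add_mem (alg_map H _ _ (hX (fixed_map H ρ _ v hv)))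
    (alg_map H _ _ (hY (fixed_map H ρ _ v hv)))

theorem tate_retract [H.Monoidal] (X Y : C) (i : X ⟶ Y) (p : Y ⟶ X) (h : i ≫ p = 𝟙 X)
    (hY : fixed H ρ Y ≤ alg H Y) : fixed H ρ X ≤ alg H X := by
  intro v hv
  rw [← retr_eq H i p h v]
  exact alg_map H _ _ (hY (fixed_map H ρ _ v hv))

private theorem stable_comap {X Y : C} (f : X ⟶ Y) (W : Submodule F (H.obj Y))
    (hW : Stable H ρ Y W) : Stable H ρ X (W.comap (H.map f).hom) := by
  intro g v hv
  rw [Submodule.mem_comap, ← nat_act]
  exact hW g _ hv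

private theorem stable_map {X Y : C} (f : X ⟶ Y) (W : Submodule F (H.obj X))
    (hW : Stable H ρ X W) : Stable H ρ Y (W.map (H.map f).hom) := by
  rintro g _ ⟨v, hv, rfl⟩
  exact ⟨_, hW g v hv, (nat_act H ρ f g v).symm⟩

private theorem stable_sup {X : C} (W W' : Submodule F (H.obj X))
    (hW : Stable H ρ X W) (hW' : Stable H ρ X W') : Stable H ρ X (W ⊔ W') := by
  intro g v hv
  obtain ⟨a, ha, b, hb, rfl⟩ := Submodule.mem_sup.1 hv
  rw [map_add]
  exact Submodule.add_mem_sup (hW g a ha) (hW' g b hb)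

theorem semisimple_retract (X Y : C) (i : X ⟶ Y) (p : Y ⟶ X) (h : i ≫ p = 𝟙 X)
    (hY : Semisimple H ρ Y) : Semisimple H ρ X := by
  intro W hW
  obtain ⟨W', hW', hc⟩ := hY _ (stable_comap H ρ p W hW)
  refine ⟨W'.map (H.map p).hom, stable_map H ρ p W' hW', ?_, ?_⟩
  · rw [Submodule.disjoint_def]
    rintro _ hw ⟨v, hv, rfl⟩
    have h0 : v = 0 := (Submodule.disjoint_def.1 hc.disjoint) v hw hv
    rw [h0, map_zero]
  · rw [codisjoint_iff, eq_top_iff]
    intro x _
    have hx : (H.map i).hom x ∈ W.comap (H.map p).hom ⊔ W' := by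
      rw [hc.sup_eq_top]; trivial
    obtain ⟨a, ha, b, hb, hab⟩ := Submodule.mem_sup.1 hx
    rw [← retr_eq H i p h x, ← hab, map_add]
    exact Submodule.add_mem_sup ha (Submodule.mem_map_of_mem hb)

theorem semisimple_sum [H.Additive] (X Y : C) (hX : Semisimple H ρ X) (hY : Semisimple H ρ Y) :
    Semisimple H ρ (X ⊞ Y) := by
  intro W hW
  let fs : X ⊞ Y ⟶ X := biprod.fst
  let sn : X ⊞ Y ⟶ Y := biprod.snd
  let il : X ⟶ X ⊞ Y := biprod.inl
  let ir : Y ⟶ X ⊞ Y := biprod.inr
  have hsum : ∀ v, (H.map il).hom ((H.map fs).hom v) + (H.map ir).hom ((H.map sn).hom v) = v :=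
    sum_eq H X Y
  have hfi : ∀ x : H.obj X, (H.map fs).hom ((H.map il).hom x) = x :=
    fun x => retr_eq H il fs biprod.inl_fst x
  have hsi : ∀ y : H.obj Y, (H.map sn).hom ((H.map ir).hom y) = y :=
    fun y => retr_eq H ir sn biprod.inr_snd y
  have hz : ∀ x : H.obj X, (H.map sn).hom ((H.map il).hom x) = 0 := by
    intro x
    have h1 := congrArg (fun k => (H.map k).hom x) (biprod.inl_snd (X := X) (Y := Y))
    simpa only [H.map_comp, ModuleCat.hom_comp, LinearMap.comp_apply, H.map_zero,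
      ModuleCat.hom_zero, LinearMap.zero_apply] using h1
  clear_value fs sn il ir
  obtain ⟨A, hA, hAc⟩ := hX _ (stable_comap H ρ il W hW)
  obtain ⟨B, hB, hBc⟩ := hY _ (stable_map H ρ sn W hW)
  refine ⟨A.map (H.map il).hom ⊔ B.map (H.map ir).hom,
    stable_sup H ρ _ _ (stable_map H ρ _ A hA) (stable_map H ρ _ B hB), ?_, ?_⟩
  · rw [Submodule.disjoint_def]
    intro w hw hw'
    obtain ⟨_, ⟨a, ha, rfl⟩, _, ⟨b, hb, rfl⟩, rfl⟩ := Submodule.mem_sup.1 hw'
    have hb0 : b = 0 := by
      refine (Submodule.disjoint_def.1 hBc.disjoint) b ⟨_, hw, ?_⟩ hb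
      rw [map_add, hz, hsi, zero_add]
    rw [hb0, map_zero, add_zero] at hw ⊢
    rw [(Submodule.disjoint_def.1 hAc.disjoint) a hw ha, map_zero]
  · rw [codisjoint_iff, eq_top_iff]
    intro v _
    have hy : (H.map sn).hom v ∈ W.map (H.map sn).hom ⊔ B := by
      rw [hBc.sup_eq_top]; trivial
    obtain ⟨_, ⟨w, hw, rfl⟩, b, hb, hwb⟩ := Submodule.mem_sup.1 hy
    have hx : (H.map fs).hom v - (H.map fs).hom w ∈ W.comap (H.map il).hom ⊔ A := by
      rw [hAc.sup_eq_top]; trivial
    obtain ⟨w0, hw0, a, ha, hwa⟩ := Submodule.mem_sup.1 hx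
    have hv : v = (w + (H.map il).hom w0) + ((H.map il).hom a + (H.map ir).hom b) := by
      have h1 : (H.map il).hom w0 + (H.map il).hom a =
          (H.map il).hom ((H.map fs).hom v) - (H.map il).hom ((H.map fs).hom w) := by
        rw [← map_add, hwa, map_sub]
      have h2 : (H.map ir).hom b = (H.map ir).hom ((H.map sn).hom v) -
            (H.map ir).hom ((H.map sn).hom w) := by
        rw [← hwb, map_add, add_sub_cancel_left]
      have h5 : (H.map il).hom ((H.map fs).hom v) - (H.map il).hom ((H.map fs).hom w) +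
          ((H.map ir).hom ((H.map sn).hom v) - (H.map ir).hom ((H.map sn).hom w)) = v - w := by
        rw [← add_sub_add_comm, hsum, hsum]
      rw [add_assoc, ← add_assoc ((H.map il).hom w0), h1, h2, h5, add_sub_cancel]
    rw [hv]
    exact Submodule.add_mem_sup (add_mem hw hw0)
      (Submodule.add_mem_sup (Submodule.mem_map_of_mem ha) (Submodule.mem_map_of_mem hb))

end Pool.Agent.KTT
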