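import Pool.Agent.KMN.Mot

/-!
# Project KTT: the Tate conjecture for objects of a thick tensor category and for open varieties

`C` is a rigid additive tensor category (homological motives over a finitely generated field `k`),
`H` its `ℓ`-adic realisation with coefficients in `F ⊇ ℚ_ℓ`, and the group `G` (the Galois group of
`k`) acts on `H` by natural automorphisms.
-/

namespace Pool.Agent.KTT

open CategoryTheory MonoidalCategory Limits Pool.Agent.KMN

universe v u w w'

section

variable {C : Type u} [Category.{v} C] [Preadditive C] [HasBinaryBiproducts C]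
  [MonoidalCategory C] [RightRigidCategory C]

/-- Tensor words in `B` and its duals. -/
inductive Word (B : C) : C → Prop
  | base : Word B B
  | tensor (X Y : C) (hX : Word B X) (hY : Word B Y) : Word B (X ⊗ Y)
  | dual (X : C) (hX : Word B X) : Word B Xᘁ

variable {F : Type w} [Field F] (H : C ⥤ ModuleCat.{w} F)

/-- The span of the algebraic classes in `H(M)`: the images of `1` under all morphisms `1 ⟶ M`. -/
noncomputable def alg [H.Monoidal] (M : C) : Submodule F (H.obj M) :=
  Submodule.span F
    {v | ∃ f : 𝟙_ C ⟶ M, v = (H.map f).hom ((Functor.LaxMonoidal.ε H).hom (1 : F))}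

variable {G : Type w'} [Group G] (ρ : G →* Aut H)

/-- The Tate classes: the invariants of `G` in `H(M)`. -/
def fixed (M : C) : Submodule F (H.obj M) where
  carrier := {v | ∀ g : G, ((ρ g).hom.app M).hom v = v}
  add_mem' := fun {a b} ha hb g => by rw [map_add, ha g, hb g]
  zero_mem' := fun g => map_zero _
  smul_mem' := fun c x hx g => by rw [map_smul, hx g]

/-- The subspace `W` of `H(M)` is stable under `G`. -/
def Stable (M : C) (W : Submodule F (H.obj M)) : Prop :=
  ∀ g : G, ∀ v ∈ W, ((ρ g).hom.app M).hom v ∈ W

/-- `H(M)` is a semisimple representation of `G`. -/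
def Semisimple (M : C) : Prop :=
  ∀ W : Submodule F (H.obj M), Stable H ρ M W →
    ∃ W' : Submodule F (H.obj M), Stable H ρ M W' ∧ IsCompl W W'

/-- The objects generated by `B`, all motives of varieties of `Kum^n`-type (any `n`) with
Kuga-Satake variety in `⟨B⟩`, and all motives with Poincaré duality whose cohomology is spanned by
images of objects of `⟨B⟩`, under finite direct sums, tensor products, duals, direct summands. -/
inductive Gen [H.Monoidal] (B : C) : C → Prop
  | base : Gen B B
  | kummer (X : C) (N : ℕ) (hN : 0 < N) (K : KummerMotive H B X N) : Gen B X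
  | spanned (X T : C) (hX : fromB H B X = ⊤) (hT : Thick B T) (d : X ≅ Xᘁ ⊗ T) : Gen B X
  | zero (X : C) (h : IsZero X) : Gen B X
  | sum (X Y : C) (hX : Gen B X) (hY : Gen B Y) : Gen B (X ⊞ Y)
  | tensor (X Y : C) (hX : Gen B X) (hY : Gen B Y) : Gen B (X ⊗ Y)
  | dual (X : C) (hX : Gen B X) : Gen B Xᘁ
  | summand (X Y : C) (i : X ⟶ Y) (p : Y ⟶ X) (h : i ≫ p = 𝟙 X) (hY : Gen B Y) : Gen B X

end

end Pool.Agent.KTT
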