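import Pool.Agent.KTT.Defs

/-!
# Project KTT: realisations of rigid objects are finite dimensional
-/

namespace Pool.Agent.KTT

open CategoryTheory MonoidalCategory Limits TensorProduct

universe v u w

private theorem hz2 {C : Type u} [Category.{v} C] [MonoidalCategory C] {D : Type*} [Category* D]
    [MonoidalCategory D] (H : C ⥤ D) [H.Monoidal] (X Y : C) [ExactPairing X Y] :
    (Functor.LaxMonoidal.ε H ≫ H.map (η_ X Y) ≫ Functor.OplaxMonoidal.δ H X Y) ▷ H.obj X ≫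
      (α_ (H.obj X) (H.obj Y) (H.obj X)).hom ≫
      H.obj X ◁ (Functor.LaxMonoidal.μ H Y X ≫ H.map (ε_ X Y) ≫ Functor.OplaxMonoidal.η H) =
      (λ_ (H.obj X)).hom ≫ (ρ_ (H.obj X)).inv := by
  have h := congrArg H.map (ExactPairing.evaluation_coevaluation X Y)
  rw [H.map_comp, H.map_comp, H.map_comp, Functor.Monoidal.map_whiskerLeft, Functor.Monoidal.map_whiskerRight,
    Functor.Monoidal.map_associator, Functor.Monoidal.map_leftUnitor,
    Functor.Monoidal.map_rightUnitor_inv] at h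
  simp only [Category.assoc, Functor.Monoidal.μ_δ_assoc] at h
  have h2 := congrArg (fun f => (Functor.LaxMonoidal.ε H ▷ H.obj X ≫ Functor.LaxMonoidal.μ H (𝟙_ C) X) ≫ f ≫
    (Functor.OplaxMonoidal.δ H X (𝟙_ C) ≫ H.obj X ◁ Functor.OplaxMonoidal.η H)) h
  simp only [Category.assoc, Functor.Monoidal.μ_δ_assoc, Functor.Monoidal.whiskerRight_ε_η_assoc,
    Functor.Monoidal.whiskerLeft_ε_η, Category.comp_id] at h2
  simp only [MonoidalCategory.whiskerLeft_comp, comp_whiskerRight, Category.assoc]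
  exact h2

/-- If `x ↦ ∑ a_i ⟨b_i, x⟩` is the identity, the space is finite dimensional. -/
private theorem fin_of_zigzag {F : Type w} [Field F] (V W : ModuleCat.{w} F)
    (c : 𝟙_ (ModuleCat.{w} F) ⟶ V ⊗ W) (e : W ⊗ V ⟶ 𝟙_ (ModuleCat.{w} F))
    (h : c ▷ V ≫ (α_ V W V).hom ≫ V ◁ e = (λ_ V).hom ≫ (ρ_ V).inv) :
    FiniteDimensional F V := by
  have key : ∀ t : (V ⊗ W : ModuleCat.{w} F), ∃ S : Submodule F V, FiniteDimensional F S ∧
      ∀ x : V, (ρ_ V).hom.hom ((V ◁ e).hom ((α_ V W V).hom.hom (t ⊗ₜ[F] x))) ∈ S := by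
    intro t
    induction t using TensorProduct.induction_on with
    | zero =>
      refine ⟨⊥, inferInstance, fun x => ?_⟩
      rw [TensorProduct.zero_tmul, map_zero, map_zero, map_zero]
      exact zero_mem _
    | tmul a b =>
      refine ⟨Submodule.span F {a}, inferInstance, fun x => ?_⟩
      have h1 : (ρ_ V).hom.hom ((V ◁ e).hom ((α_ V W V).hom.hom ((a ⊗ₜ[F] b) ⊗ₜ[F] x))) =
          (e.hom (b ⊗ₜ[F] x) : F) • a := rfl
      rw [h1]
      exact Submodule.smul_mem _ _ (Submodule.mem_span_singleton_self a)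
    | add s t hs ht =>
      obtain ⟨S, hS, h1⟩ := hs
      obtain ⟨T, hT, h2⟩ := ht
      refine ⟨S ⊔ T, inferInstance, fun x => ?_⟩
      rw [TensorProduct.add_tmul, map_add, map_add, map_add]
      exact Submodule.add_mem_sup (h1 x) (h2 x)
  obtain ⟨S, hS, h1⟩ := key (c.hom (1 : F))
  have h2 : (⊤ : Submodule F V) ≤ S := by
    intro x _
    have h3 := h1 x
    have h4 := congrArg (fun f => (ρ_ V).hom.hom (f.hom ((1 : F) ⊗ₜ[F] x))) h
    have h5 : (ρ_ V).hom.hom ((c ▷ V ≫ (α_ V W V).hom ≫ V ◁ e).hom ((1 : F) ⊗ₜ[F] x)) =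
        (ρ_ V).hom.hom ((V ◁ e).hom ((α_ V W V).hom.hom (c.hom (1 : F) ⊗ₜ[F] x))) := rfl
    have h6 : (ρ_ V).hom.hom (((λ_ V).hom ≫ (ρ_ V).inv).hom ((1 : F) ⊗ₜ[F] x)) = x := by
      have h7 : (ρ_ V).hom.hom (((λ_ V).hom ≫ (ρ_ V).inv).hom ((1 : F) ⊗ₜ[F] x)) =
        (((λ_ V).hom ≫ (ρ_ V).inv) ≫ (ρ_ V).hom).hom ((1 : F) ⊗ₜ[F] x) := rfl
      rw [h7, Category.assoc, Iso.inv_hom_id, Category.comp_id]
      exact one_smul F x
    have h8 : (ρ_ V).hom.hom ((V ◁ e).hom ((α_ V W V).hom.hom (c.hom (1 : F) ⊗ₜ[F] x))) = x :=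
      h5.symm.trans (h4.trans h6)
    rw [h8] at h3
    exact h3
  have h3 : FiniteDimensional F (⊤ : Submodule F V) := Submodule.finiteDimensional_of_le h2
  exact Module.Finite.equiv Submodule.topEquiv

theorem finite_of_rigid {C : Type u} [Category.{v} C] [MonoidalCategory C] {F : Type w} [Field F]
    (H : C ⥤ ModuleCat.{w} F) [H.Monoidal] (X : C) [HasRightDual X] :
    FiniteDimensional F (H.obj X) :=
  fin_of_zigzag (H.obj X) (H.obj Xᘁ) _ _ (hz2 H X Xᘁ)

end Pool.Agent.KTT
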