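import Pool.Agent.KTT.Closure
import Pool.Agent.KTT.Words
import Pool.Agent.KTT.Rigid
import Pool.Agent.KMN.MotMain

/-!
# Project KTT: conclusion
-/

namespace Pool.Agent.KTT

open CategoryTheory MonoidalCategory Limits Pool.Agent.KMN

universe v u w w'

variable {C : Type u} [Category.{v} C] [Preadditive C] [HasBinaryBiproducts C]
  [MonoidalCategory C] [RightRigidCategory C]
  {F : Type w} [Field F] (H : C ⥤ ModuleCat.{w} F)

/-- `KMN.thick_of_kummer` without the Kummer structure. -/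
theorem thick_of_spanned [H.Monoidal] [H.Faithful] (B X T : C)
    (reg : ∀ M M' : C, Thick B M → Thick B M' → ∀ f : M ⟶ M', ∃ g : M' ⟶ M, f ≫ g ≫ f = f)
    (hX : fromB H B X = ⊤) (hT : Thick B T) (d : X ≅ Xᘁ ⊗ T) : Thick B X := by
  have := finite_of_rigid H X
  obtain ⟨M, hM, f, hf⟩ := exists_onto H B X hX
  let g : X ⟶ Mᘁ ⊗ T := d.hom ≫ (fᘁ) ▷ T
  have hT : Thick B (Mᘁ ⊗ T) := Thick.tensor _ _ (Thick.dual M hM) hT
  have hg : Function.Injective (H.map g).hom := by
    have h1 : Function.Injective (H.map d.hom).hom :=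
      ((ModuleCat.mono_iff_injective _).1 inferInstance)
    have h2 := whisker_injective H (fᘁ) T (dual_injective H f hf)
    rw [Functor.map_comp, ModuleCat.hom_comp, LinearMap.coe_comp]
    exact h2.comp h1
  obtain ⟨k, hk⟩ := reg M (Mᘁ ⊗ T) hM hT (f ≫ g)
  obtain ⟨i, p, hip⟩ := retract_of_regular H f g k hk hf hg
  exact Thick.summand X M i p hip hM

theorem thick_of_gen [CharZero F] [H.Monoidal] [H.Faithful] (B : C)
    (reg : ∀ M M' : C, Thick B M → Thick B M' → ∀ f : M ⟶ M', ∃ g : M' ⟶ M, f ≫ g ≫ f = f)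
    (M : C) (hM : Gen H B M) : Thick B M := by
  induction hM with
  | base => exact Thick.base
  | kummer X N hN K =>
    have := finite_of_rigid H X
    exact thick_of_kummer H B X reg N hN K
  | spanned X T hX hT d => exact thick_of_spanned H B X T reg hX hT d
  | zero X h => exact Thick.zero X h
  | sum X Y _ _ ihX ihY => exact Thick.sum X Y ihX ihY
  | tensor X Y _ _ ihX ihY => exact Thick.tensor X Y ihX ihY
  | dual X _ ihX => exact Thick.dual X ihX
  | summand X Y i p h _ ihY => exact Thick.summand X Y i p h ihY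

theorem covered_tate {G : Type w'} [Group G] (ρ : G →* Aut H) [H.Monoidal] (Y : C)
    (hT : fixed H ρ Y ≤ alg H Y) (hS : Semisimple H ρ Y)
    (V' : Type w) [AddCommGroup V'] [Module F V'] (act : G → V' →ₗ[F] V')
    (res : H.obj Y →ₗ[F] V') (res_act : ∀ g v, res (((ρ g).hom.app Y).hom v) = act g (res v))
    (weights : ∀ v, (∀ g, act g v = v) → v ∈ LinearMap.range res)
    (V : Type w) [AddCommGroup V] [Module F V] (tate cyc : Submodule F V)
    (up : V →ₗ[F] V') (up_tate : ∀ v ∈ tate, ∀ g, act g (up v) = up v)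
    (down : V' →ₗ[F] V) (down_alg : ∀ v ∈ alg H Y, down (res v) ∈ cyc)
    (deg : F) (deg_ne : deg ≠ 0) (down_up : ∀ v ∈ tate, down (up v) = deg • v) :
    tate ≤ cyc := by
  intro v hv
  obtain ⟨y, hy⟩ := weights _ (up_tate v hv)
  have hK : Stable H ρ Y (LinearMap.ker res) := by
    intro g w hw
    rw [LinearMap.mem_ker] at hw ⊢
    rw [res_act, hw, map_zero]
  obtain ⟨K', hK', hc⟩ := hS _ hK
  have hy' : y ∈ LinearMap.ker res ⊔ K' := by rw [hc.sup_eq_top]; trivial
  obtain ⟨a, ha, z, hz, rfl⟩ := Submodule.mem_sup.1 hy'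
  rw [map_add, LinearMap.mem_ker.1 ha, zero_add] at hy
  have hzf : z ∈ fixed H ρ Y := by
    intro g
    have h1 : ((ρ g).hom.app Y).hom z - z ∈ LinearMap.ker res := by
      rw [LinearMap.mem_ker, map_sub, res_act, hy, up_tate v hv, sub_self]
    have h2 := (Submodule.disjoint_def.1 hc.disjoint) _ h1 (sub_mem (hK' g z hz) hz)
    exact sub_eq_zero.1 h2
  have h3 := down_alg z (hT hzf)
  rw [hy, down_up v hv] at h3
  have h4 := cyc.smul_mem deg⁻¹ h3
  rwa [smul_smul, inv_mul_cancel₀ deg_ne, one_smul] at h4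

theorem main [MonoidalPreadditive C] [CharZero F] [H.Additive] [H.Monoidal] [H.Faithful]
    {G : Type w'} [Group G] (ρ : G →* Aut H) (B : C)
    (reg : ∀ M M' : C, Thick B M → Thick B M' → ∀ f : M ⟶ M', ∃ g : M' ⟶ M, f ≫ g ≫ f = f)
    (words : ∀ W, Word B W → fixed H ρ W ≤ alg H W ∧ Semisimple H ρ W)
    (Y : C) (hY : Gen H B Y) :
    fixed H ρ Y ≤ alg H Y ∧ Semisimple H ρ Y :=
  thick_induction B (fun M => fixed H ρ M ≤ alg H M ∧ Semisimple H ρ M) words
    (fun X Y hX hY => ⟨tate_sum H ρ X Y hX.1 hY.1, semisimple_sum H ρ X Y hX.2 hY.2⟩)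
    (fun X Y i p hip hY => ⟨tate_retract H ρ X Y i p hip hY.1,
      semisimple_retract H ρ X Y i p hip hY.2⟩) Y (thick_of_gen H B reg Y hY)

end Pool.Agent.KTT
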